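import Pool.Agent.V5helper27.BM.Stm

/-!
# Project BM, job COMP: composition of functions of Sigma
-/

set_option autoImplicit false

open Complex Filter Topology Set Metric MeasureTheory

namespace Pool.Agent.V5helper98.BM

open Pool.Agent.V5helper27.BM

theorem isOpen_Ex : IsOpen {z : ℂ | 1 < ‖z‖} := isOpen_lt continuous_const continuous_norm

theorem cobdd_of_sub {g : ℂ → ℂ} {b : ℂ}
    (hg : Tendsto (fun z => g z - z) (Bornology.cobounded ℂ) (nhds b)) :
    Tendsto g (Bornology.cobounded ℂ) (Bornology.cobounded ℂ) := by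
  rw [← tendsto_norm_atTop_iff_cobounded]
  have h1 : Tendsto (fun z : ℂ => ‖z‖) (Bornology.cobounded ℂ) atTop :=
    tendsto_norm_cobounded_atTop
  have h2 : Tendsto (fun z => ‖g z - z‖) (Bornology.cobounded ℂ) (nhds ‖b‖) := hg.norm
  have h3 : Tendsto (fun z : ℂ => ‖z‖ + -‖g z - z‖) (Bornology.cobounded ℂ) atTop :=
    h1.atTop_add h2.neg
  refine tendsto_atTop_mono (fun z => ?_) h3
  have h4 : ‖z‖ ≤ ‖g z‖ + ‖g z - z‖ := by
    have : z = g z - (g z - z) := by ring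
    calc ‖z‖ = ‖g z - (g z - z)‖ := by rw [← this]
      _ ≤ ‖g z‖ + ‖g z - z‖ := norm_sub_le _ _
  linarith

theorem comp : S_comp := by
  intro ψ h g hg hψ hgg ρ hρ hmap
  obtain ⟨p1, p2, ⟨b, p3⟩, p4, p5, p6⟩ := hψ
  obtain ⟨g1, g2, ⟨c, g3⟩, g4, g5, g6⟩ := hgg
  have hd : DifferentiableOn ℂ (fun z => ρ * g z) {z : ℂ | 1 < ‖z‖} := g1.const_mul ρ
  have hm : MapsTo (fun z => ρ * g z) {z : ℂ | 1 < ‖z‖} {z : ℂ | 1 < ‖z‖} := fun z hz => hmap z hz
  have hinf : Tendsto (fun z => ρ * g z) (Bornology.cobounded ℂ) (Bornology.cobounded ℂ) := by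
    rw [← tendsto_norm_atTop_iff_cobounded]
    have h1 := cobdd_of_sub g3
    rw [← tendsto_norm_atTop_iff_cobounded] at h1
    simp only [norm_mul]
    exact h1.const_mul_atTop (norm_pos_iff.2 hρ)
  refine ⟨?_, ?_, ⟨ρ⁻¹ * b + c, ?_⟩, ?_, ?_, ?_⟩
  · exact (p1.comp hd hm).const_mul ρ⁻¹
  · intro z hz w hw heq
    simp only at heq
    have h1 := mul_left_cancel₀ (inv_ne_zero hρ) heq
    have h2 := p2 (hm hz) (hm hw) h1
    exact g2 hz hw (mul_left_cancel₀ hρ h2)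
  · have h1 : Tendsto (fun z => ρ⁻¹ * (ψ (ρ * g z) - ρ * g z) + (g z - z)) (Bornology.cobounded ℂ)
        (nhds (ρ⁻¹ * b + c)) := ((p3.comp hinf).const_mul ρ⁻¹).add g3
    refine h1.congr fun z => ?_
    have : ρ⁻¹ * (ρ * g z) = g z := by
      rw [← mul_assoc, inv_mul_cancel₀ hρ, one_mul]
    rw [mul_sub, this]
    ring
  · exact (p4.comp hd hm).add g4
  · intro z hz
    have hz' : z ∈ {z : ℂ | 1 < ‖z‖} := hz
    have e1 : HasDerivAt g (deriv g z) z := (g1.differentiableAt (isOpen_Ex.mem_nhds hz')).hasDerivAt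
    have e2 : HasDerivAt ψ (deriv ψ (ρ * g z)) (ρ * g z) :=
      (p1.differentiableAt (isOpen_Ex.mem_nhds (hm hz'))).hasDerivAt
    have e3 : HasDerivAt (fun z => ρ * g z) (ρ * deriv g z) z := e1.const_mul ρ
    have e4 : HasDerivAt (fun z => ψ (ρ * g z)) (deriv ψ (ρ * g z) * (ρ * deriv g z)) z :=
      HasDerivAt.comp z e2 e3
    have e5 := e4.const_mul ρ⁻¹
    rw [e5.deriv, Complex.exp_add, p5 _ (hm hz'), g5 z hz]
    field_simp
  · have h1 := (p6.comp hinf).add g6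
    simpa using h1

end Pool.Agent.V5helper98.BM
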