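import Pool.Agent.V5helper27.BM.Stm2

/-!
# Project BM, job DAT2: the data of a transformation, with the local description
-/

set_option autoImplicit false

open Complex Filter Topology Set Metric MeasureTheory

namespace Pool.Agent.V5helper98.BM

open Pool.Agent.V5helper27.BM

theorem LR_nonneg {r : ℝ} (hr : 1 < r) : 0 ≤ LR r := by
  unfold LR
  have h1 : 0 < r ^ 2 - 1 := by nlinarith
  refine Real.log_nonneg ?_
  rw [le_div_iff₀ h1]
  linarith

theorem LR_anti {r r' : ℝ} (hr : 1 < r) (h : r ≤ r') : LR r' ≤ LR r := by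
  unfold LR
  have h1 : 0 < r ^ 2 - 1 := by nlinarith
  have h2 : 0 < r' ^ 2 - 1 := by nlinarith
  have h3 : 0 < r' ^ 2 := by nlinarith
  refine Real.log_le_log (div_pos h3 h2) ?_
  rw [div_le_div_iff₀ h2 h1]
  nlinarith

theorem LR_sqrt_two : LR (Real.sqrt 2) ≤ 1 := by
  unfold LR
  rw [Real.sq_sqrt (by norm_num)]
  have : (2 : ℝ) / (2 - 1) = 2 := by norm_num
  rw [this]
  have := Real.log_two_lt_d9
  linarith

theorem dat (hk1 : S_km1) (hk2 : S_km2) (hg : S_gol) (_hg1 : S_gol1) (hl : S_lip) (_hc : S_comp)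
    (hd : S_dat1) : S_dat := by
  obtain ⟨A, hA⟩ := hd
  obtain ⟨C, δ, δ', hC, hδ, hδ1, hδ', hδ'1, H⟩ := hk2
  obtain ⟨k1, -, -, k2, -⟩ := hk1
  refine ⟨A, C + 3, δ, δ', by linarith, hδ, hδ1, hδ', hδ'1, ?_⟩
  intro ψ h hσ
  have hz0 : 1 < ‖z0‖ := by
    rw [k1]
    exact Real.lt_sqrt_of_sq_lt (by norm_num)
  obtain ⟨G, G1, G2, G3⟩ := hg ψ h hσ z0 hz0
  refine ⟨fun u => G (kk u) + nn u, fun u => h (kk u) + sg u, hA ψ h hσ G G1 G2 G3, ?_⟩
  intro x hx hx'
  obtain ⟨X, φ, φ', hcont, hθ, he1, he2⟩ := H x hx hx'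
  refine ⟨φ, φ', hcont, ?_, he1, he2⟩
  intro θ hθm
  obtain ⟨a1, a2, a3, a4, a5, a6, a7, a8⟩ := hθ θ hθm
  refine ⟨a1, a2, a3, ?_, ?_⟩
  · -- the bound of `l`
    set u := cexp (x + θ * I) with hu
    have hun : ‖u‖ = Real.exp x := by
      rw [hu, Complex.norm_exp]
      simp
    have hex : 1 < Real.exp x := Real.one_lt_exp_iff.2 hx
    have huE : u ∈ Ex := by
      show 1 < ‖u‖
      rw [hun]
      exact hex
    have hk := (k2 u huE).1
    rw [hun] at hk
    have hkE : kk u ∈ Ex := by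
      show 1 < ‖kk u‖
      linarith
    have h1 := G3 (kk u) hkE
    have h2 : LR ‖kk u‖ * LR ‖z0‖ ≤ LR (Real.exp x) := by
      rw [k1]
      have h3 := LR_anti hex hk
      have h4 := LR_sqrt_two
      have h5 : 0 ≤ LR (Real.sqrt 2) := LR_nonneg (by rw [← k1]; exact hz0)
      have h6 := LR_nonneg hex
      calc LR ‖kk u‖ * LR (Real.sqrt 2) ≤ LR (Real.exp x) * LR (Real.sqrt 2) :=
            mul_le_mul_of_nonneg_right h3 h5
        _ ≤ LR (Real.exp x) * 1 := mul_le_mul_of_nonneg_left h4 h6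
        _ = LR (Real.exp x) := mul_one _
    have h3 := Real.sqrt_le_sqrt h2
    have h4 : ‖G (kk u) + nn u‖ ≤ Real.sqrt (LR (Real.exp x)) + C :=
      (norm_add_le _ _).trans (by linarith)
    have h5 := Real.sqrt_nonneg (LR (Real.exp x))
    refine h4.trans ?_
    nlinarith
  · -- the second bound
    show ‖(h (kk (cexp (x + θ * I))) + sg (cexp (x + θ * I))) - h (cexp (x + φ θ * I))‖ ≤ C + 3
    rw [a6]
    have h1 := hl ψ h hσ x hx (X θ + φ θ * I) (x + φ θ * I) (by simpa using a4) (by simp)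
    have h2 : ((X θ : ℂ) + φ θ * I) - (x + φ θ * I) = ((X θ - x : ℝ) : ℂ) := by
      push_cast
      ring
    rw [h2, Complex.norm_real, Real.norm_eq_abs, abs_of_nonneg (by linarith)] at h1
    have h3 : 3 / x * (X θ - x) ≤ 3 := by
      rw [div_mul_eq_mul_div, div_le_iff₀ hx]
      nlinarith
    have h4 : h (cexp (X θ + φ θ * I)) + sg (cexp (x + θ * I)) - h (cexp (x + φ θ * I)) =
        (h (cexp (X θ + φ θ * I)) - h (cexp (x + φ θ * I))) + sg (cexp (x + θ * I)) := by ring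
    rw [h4]
    refine (norm_add_le _ _).trans ?_
    linarith

end Pool.Agent.V5helper98.BM
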